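import Pool.Agent.W78.GR.Basic
import Pool.Agent.W591.GM.Equ

/-!
Project GR (helper78), part GR-19: `S_EQU`.
-/

set_option autoImplicit false

namespace Pool.Agent.W500.GR

open Finset
open Pool.Agent.W78.GR

variable {t c : ℤ} {η : (Qd t c)ˣ}

/-- the Gaussian integer with the same coordinates -/
def gi (z : Qd t c) : GaussianInt := ⟨z.re, z.im⟩

lemma gi_inj {z w : Qd t c} (h : gi z = gi w) : z = w := by
  unfold gi at h
  have h1 := congrArg Zsqrtd.re h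
  have h2 := congrArg Zsqrtd.im h
  exact QuadraticAlgebra.ext h1 h2

/-- coordinates from the embeddings -/
lemma coord_of_s (U : Un t c η) {z : Qd t c} (hz : tp z) {B : ℝ} (h1 : s1 z ≤ B) (h2 : s2 z ≤ B) :
    (z.re : ℝ) ^ 2 + (z.im : ℝ) ^ 2 ≤ ((|(t : ℝ)| + 1) ^ 2 + 1) * B ^ 2 := by
  have hp1 := hz.1
  have hp2 := hz.2
  have hB : 0 < B := lt_of_lt_of_le hp1 h1
  have h5 := s1_sub_s2 z
  have h6 := s1_add_s2 z
  have hq : 2 ≤ Real.sqrt ((t : ℝ) ^ 2 - 4 * c) := by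
    apply Real.le_sqrt_of_sq_le
    have := U.five_le
    linarith
  have hi : |(z.im : ℝ)| ≤ B := by
    have h7 : |(z.im : ℝ)| * Real.sqrt ((t : ℝ) ^ 2 - 4 * c) = |s1 z - s2 z| := by
      rw [h5, abs_mul, abs_of_pos (by linarith : 0 < Real.sqrt ((t : ℝ) ^ 2 - 4 * c))]
    have h8 : |s1 z - s2 z| ≤ B := abs_le.2 ⟨by linarith, by linarith⟩
    have h9 : |(z.im : ℝ)| * 2 ≤ |(z.im : ℝ)| * Real.sqrt ((t : ℝ) ^ 2 - 4 * c) :=
      mul_le_mul_of_nonneg_left hq (abs_nonneg _)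
    have := abs_nonneg (z.im : ℝ)
    linarith
  have hr : |(z.re : ℝ)| ≤ (|(t : ℝ)| + 1) * B := by
    have h7 : (z.re : ℝ) = (s1 z + s2 z) / 2 - t * z.im / 2 := by linarith
    rw [h7]
    have h8 : |(s1 z + s2 z) / 2 - t * z.im / 2| ≤ |(s1 z + s2 z) / 2| + |(t : ℝ) * z.im / 2| :=
      abs_sub _ _
    have h9 : |(s1 z + s2 z) / 2| ≤ B := by
      rw [abs_of_pos (by linarith)]
      linarith
    have h10 : |(t : ℝ) * z.im / 2| ≤ |(t : ℝ)| * B := by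
      rw [abs_div, abs_mul, abs_of_pos (by norm_num : (0 : ℝ) < 2)]
      have h12 : |(t : ℝ)| * |(z.im : ℝ)| ≤ |(t : ℝ)| * B :=
        mul_le_mul_of_nonneg_left hi (abs_nonneg _)
      have h11 : 0 ≤ |(t : ℝ)| * |(z.im : ℝ)| := by positivity
      linarith
    linarith
  have hi2 : (z.im : ℝ) ^ 2 ≤ B ^ 2 := by
    rw [← sq_abs]
    exact pow_le_pow_left₀ (abs_nonneg _) hi 2
  have hr2 : (z.re : ℝ) ^ 2 ≤ ((|(t : ℝ)| + 1) * B) ^ 2 := by
    rw [← sq_abs]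
    exact pow_le_pow_left₀ (abs_nonneg _) hr 2
  nlinarith

/-- the constant -/
noncomputable def KK (η : (Qd t c)ˣ) : ℝ := ((|(t : ℝ)| + 1) ^ 2 + 1) * (s1 (η : Qd t c) ^ 2) ^ 2

/-- coordinates of the elements of a pair -/
lemma coord_pair (U : Un t c η) {X : ℝ} {e : Qd t c × Qd t c} (he : e ∈ dedge η X) :
    (e.1.re : ℝ) ^ 2 + (e.1.im : ℝ) ^ 2 ≤ KK η * X ∧
    (e.2.re : ℝ) ^ 2 + (e.2.im : ℝ) ^ 2 ≤ KK η * X := by
  classical
  have hX0 : 0 ≤ X := le_trans (Nat.cast_nonneg _) (U.mem_dedge.1 he).2.1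
  have hs := U.s1_gt
  have hsq : 0 ≤ Real.sqrt X := Real.sqrt_nonneg X
  have hone : 1 ≤ s1 (η : Qd t c) ^ 2 := one_le_pow₀ hs.le
  have key : ∀ z : Qd t c, tp z → s1 z ≤ s1 (η : Qd t c) ^ 2 * Real.sqrt X →
      s2 z ≤ s1 (η : Qd t c) ^ 2 * Real.sqrt X →
      (z.re : ℝ) ^ 2 + (z.im : ℝ) ^ 2 ≤ KK η * X := by
    intro z hz h1 h2
    refine (coord_of_s U hz h1 h2).trans (le_of_eq ?_)
    unfold KK
    rw [mul_pow, Real.sq_sqrt hX0]
    ring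
  have keyfd : ∀ z : Qd t c, z ∈ ball η X →
      s1 z ≤ s1 (η : Qd t c) * Real.sqrt X ∧ s2 z ≤ Real.sqrt X := by
    intro z hz
    obtain ⟨h1, h2⟩ := U.mem_ball.1 hz
    obtain ⟨h3, h4⟩ := U.s_le h1 h2
    exact ⟨h4, h3⟩
  unfold dedge at he
  rw [mem_filter, mem_product, mem_union, mem_image] at he
  obtain ⟨⟨h1, h2⟩, -⟩ := he
  have b1 : Real.sqrt X ≤ s1 (η : Qd t c) * Real.sqrt X := by nlinarith
  have b2 : s1 (η : Qd t c) * Real.sqrt X ≤ s1 (η : Qd t c) ^ 2 * Real.sqrt X := by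
    apply mul_le_mul_of_nonneg_right _ hsq
    nlinarith
  have keyfd2 : ∀ z : Qd t c, z ∈ ball η X → (z.re : ℝ) ^ 2 + (z.im : ℝ) ^ 2 ≤ KK η * X := by
    intro z hz
    obtain ⟨h3, h4⟩ := keyfd z hz
    exact key z (U.mem_ball.1 hz).1.1 (h3.trans b2) (h4.trans (b1.trans b2))
  refine ⟨keyfd2 _ h1, ?_⟩
  rcases h2 with h2 | ⟨z, hz, h2⟩
  · exact keyfd2 _ h2
  · rw [← h2]
    obtain ⟨h3, h4⟩ := keyfd z hz
    have hz1 := (U.mem_ball.1 hz).1.1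
    refine key _ (tp_mul U.disc U.pos hz1) ?_ ?_
    · rw [s1_mul U.disc]
      have := mul_le_mul_of_nonneg_left h3 (by linarith : (0 : ℝ) ≤ s1 (η : Qd t c))
      linarith
    · rw [s2_mul U.disc]
      have h5 : s2 (η : Qd t c) ≤ 1 := by
        have h6 := U.s1_mul_s2_eta
        have h7 := U.pos.2
        nlinarith
      have h6 : s2 (η : Qd t c) * s2 z ≤ 1 * s2 z := mul_le_mul_of_nonneg_right h5 hz1.2.le
      linarith

theorem equ_of (U : Un t c η) : S_EQU t c η := by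
  classical
  obtain ⟨C, hC, hE⟩ := Pool.Agent.W591.GM.equ
  set K : ℝ := KK η with hK
  have hs := U.s1_gt
  have hK1 : 1 ≤ K := by
    rw [hK]
    unfold KK
    have h1 : 1 ≤ (s1 (η : Qd t c) ^ 2) ^ 2 := one_le_pow₀ (one_le_pow₀ hs.le)
    have h2 : 1 ≤ (|(t : ℝ)| + 1) ^ 2 + 1 := by nlinarith [sq_nonneg (|(t : ℝ)| + 1)]
    nlinarith
  refine ⟨C * K, by positivity, fun A => ?_⟩
  obtain ⟨X₀, hX₀⟩ := hE A
  refine ⟨max (Real.exp 1) X₀, ?_⟩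
  intro X M x₁ y₁ x₂ y₂ hX hM1 hM2
  have hXe : Real.exp 1 ≤ X := (le_max_left _ _).trans hX
  have hXX0 : X₀ ≤ X := (le_max_right _ _).trans hX
  have hX1 : 1 ≤ X := by
    have := Real.add_one_le_exp (1 : ℝ)
    linarith
  have hXK : X ≤ K * X := by nlinarith
  have hKX1 : 1 ≤ K * X := hX1.trans hXK
  have hlog : 1 ≤ Real.log (K * X) := by
    rw [Real.le_log_iff_exp_le (by linarith)]
    linarith
  have hlogpow : 1 ≤ Real.log (K * X) ^ A := one_le_pow₀ hlog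
  have hM3 : (M : ℝ) ≤ Real.log (K * X) ^ A := by
    refine hM2.trans ?_
    apply pow_le_pow_left₀ (Real.log_nonneg hX1)
    exact Real.log_le_log (by linarith) hXK
  have h := hX₀ (K * X) (K * X) (K * X) M ⟨x₁, y₁⟩ ⟨x₂, y₂⟩ (hXX0.trans hXK) hKX1 hKX1
    (by rw [pow_two]) (by nlinarith) (by nlinarith) hM1 hM3
  have h2 : ((dedge η X).filter (fun e => (M : ℤ) ∣ e.1.re - x₁ ∧ (M : ℤ) ∣ e.1.im - y₁ ∧
      (M : ℤ) ∣ e.2.re - x₂ ∧ (M : ℤ) ∣ e.2.im - y₂)).card ≤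
      ((Pool.Agent.W78.GM.redge (K * X) (K * X)).filter
        (fun e => (M : GaussianInt) ∣ e.1 - ⟨x₁, y₁⟩ ∧ (M : GaussianInt) ∣ e.2 - ⟨x₂, y₂⟩)).card := by
    apply Finset.card_le_card_of_injOn (fun e => (gi e.1, gi e.2))
    · intro e he
      rw [mem_coe, mem_filter] at he
      obtain ⟨he1, h1, h2, h3, h4⟩ := he
      obtain ⟨n1, n2⟩ := coord_pair U he1
      have hdt := (U.mem_dedge.1 he1).2.2.2.2
      obtain ⟨p1, p2⟩ := prim_of_dt hdt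
      have key : ∀ z : Qd t c, (z.re : ℝ) ^ 2 + (z.im : ℝ) ^ 2 ≤ K * X → prim z →
          gi z ∈ Pool.Agent.W78.GM.pball (K * X) := by
        intro z hz hp
        rw [Pool.Agent.W78.GM.mem_pball]
        refine ⟨hp, ?_⟩
        have h5 := Pool.Agent.W78.GM.nm_cast (gi z)
        have h6 : ((Pool.Agent.W78.GM.nm (gi z) : ℕ) : ℝ) = (z.re : ℝ) ^ 2 + (z.im : ℝ) ^ 2 := by
          have h7 : (((Pool.Agent.W78.GM.nm (gi z) : ℕ) : ℤ) : ℝ) =
            (((gi z).re ^ 2 + (gi z).im ^ 2 : ℤ) : ℝ) := by rw [h5]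
          push_cast at h7
          exact h7
        rw [h6]
        exact hz
      have hdv : ∀ (z : Qd t c) (x y : ℤ), (M : ℤ) ∣ z.re - x → (M : ℤ) ∣ z.im - y →
          (M : GaussianInt) ∣ gi z - ⟨x, y⟩ := by
        intro z x y h5 h6
        have h7 : (((M : ℤ)) : GaussianInt) ∣ gi z - ⟨x, y⟩ := by
          rw [Zsqrtd.intCast_dvd]
          exact ⟨by simpa [gi] using h5, by simpa [gi] using h6⟩
        exact_mod_cast h7
      rw [mem_coe, mem_filter]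
      refine ⟨?_, hdv _ _ _ h1 h2, hdv _ _ _ h3 h4⟩
      unfold Pool.Agent.W78.GM.redge
      rw [mem_filter, mem_product]
      exact ⟨⟨key _ n1 p1, key _ n2 p2⟩, hdt⟩
    · rintro ⟨a, b⟩ _ ⟨a', b'⟩ _ hab
      have h1 := Prod.mk.inj hab
      exact Prod.ext (gi_inj h1.1) (gi_inj h1.2)
  have h3 : (((dedge η X).filter (fun e => (M : ℤ) ∣ e.1.re - x₁ ∧ (M : ℤ) ∣ e.1.im - y₁ ∧
      (M : ℤ) ∣ e.2.re - x₂ ∧ (M : ℤ) ∣ e.2.im - y₂)).card : ℝ) ≤ C * (K * X) / (M : ℝ) ^ 3 :=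
    le_trans (by exact_mod_cast h2) h
  refine h3.trans (le_of_eq ?_)
  ring

end Pool.Agent.W500.GR
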