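import Pool.Agent.W500.GR.Loc

/-!
Project GR (helper78), part GR-19: `S_SQB`.
-/

set_option autoImplicit false

namespace Pool.Agent.W500.GR

open Finset
open Pool.Agent.W78.GR

variable {t c : ℤ} {η : (Qd t c)ˣ}

lemma dich {l : ℕ} (hl : l.Prime) {A B : ℤ} {i s : ℕ} (h : ((l ^ i : ℕ) : ℤ) ∣ A * B)
    (hsi : s + 1 ≤ i) : ((l ^ (i - s) : ℕ) : ℤ) ∣ A ∨ ((l ^ (i - s) : ℕ) : ℤ) ∣ B ∨
      (((l ^ (s + 1) : ℕ) : ℤ) ∣ A ∧ ((l ^ (s + 1) : ℕ) : ℤ) ∣ B) := by
  rw [Int.natCast_dvd, Int.natAbs_mul] at h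
  obtain ⟨d₁, d₂, h1, h2, h3⟩ := (Nat.dvd_mul).1 h
  have e1 : d₁ ∣ l ^ i := ⟨d₂, h3.symm⟩
  have e2 : d₂ ∣ l ^ i := ⟨d₁, by rw [mul_comm]; exact h3.symm⟩
  obtain ⟨a, ha, rfl⟩ := (Nat.dvd_prime_pow hl).1 e1
  obtain ⟨b, hb, rfl⟩ := (Nat.dvd_prime_pow hl).1 e2
  rw [← pow_add] at h3
  have h4 : a + b = i := Nat.pow_right_injective hl.two_le h3
  rw [Int.natCast_dvd, Int.natCast_dvd, Int.natCast_dvd, Int.natCast_dvd]
  by_cases ha2 : i - s ≤ a
  · exact Or.inl ((pow_dvd_pow l ha2).trans h1)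
  · by_cases hb2 : i - s ≤ b
    · exact Or.inr (Or.inl ((pow_dvd_pow l hb2).trans h2))
    · right; right
      exact ⟨(pow_dvd_pow l (by omega)).trans h1, (pow_dvd_pow l (by omega)).trans h2⟩

/-- the ideal of a primitive vector with norm divisible by `l^i` -/
lemma exists_root (hD : 4 * c < t ^ 2) {l i : ℕ} (hl : l.Prime) (hi : 1 ≤ i) {v : Qd t c}
    (hvt : tp v) (hv : prim v) (h : l ^ i ∣ nm v) : ∃ r : ℤ, lat (l ^ i) r v ∧
      ((l ^ i : ℕ) : ℤ) ∣ r ^ 2 - t * r + c := by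
  have h1 : ((l ^ i : ℕ) : ℤ) ∣ v.re ^ 2 + t * v.re * v.im + c * v.im ^ 2 := by
    rw [← nm_tp_int hD hvt]
    exact_mod_cast h
  have hpl := Nat.prime_iff_prime_int.1 hl
  have h2 : ¬ (l : ℤ) ∣ v.im := by
    intro h3
    have h4 : (l : ℤ) ∣ ((l ^ i : ℕ) : ℤ) := by
      exact_mod_cast dvd_pow_self l (by omega : i ≠ 0)
    have h5 : (l : ℤ) ∣ v.re ^ 2 := by
      have h6 := h4.trans h1
      have h7 : (l : ℤ) ∣ v.im * (t * v.re + c * v.im) := h3.mul_right _
      have h8 := dvd_sub h6 h7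
      have e : v.re ^ 2 + t * v.re * v.im + c * v.im ^ 2 - v.im * (t * v.re + c * v.im) =
        v.re ^ 2 := by ring
      rwa [e] at h8
    have h6 := hpl.dvd_of_dvd_pow h5
    have h7 : (l : ℤ) ∣ (Int.gcd v.re v.im : ℤ) := Int.dvd_coe_gcd h6 h3
    unfold prim at hv
    rw [hv] at h7
    have : l ∣ 1 := by exact_mod_cast h7
    exact hl.one_lt.ne' (Nat.dvd_one.1 this)
  have hcop : IsCoprime (((l ^ i : ℕ)) : ℤ) v.im := by
    push_cast
    exact IsCoprime.pow_left (hpl.coprime_iff_not_dvd.2 h2)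
  obtain ⟨a, b, hab⟩ := hcop
  refine ⟨-(v.re * b), ?_, ?_⟩
  · unfold lat
    refine ⟨v.re * a, ?_⟩
    linear_combination (-v.re) * hab
  · have h3 : ((l ^ i : ℕ) : ℤ) ∣ v.re + (-(v.re * b)) * v.im :=
      ⟨v.re * a, by linear_combination (-v.re) * hab⟩
    set r := -(v.re * b) with hr
    have e : v.re ^ 2 + t * v.re * v.im + c * v.im ^ 2 =
        (v.re + r * v.im) * (v.re + (t - r) * v.im) + v.im ^ 2 * (r ^ 2 - t * r + c) := by ring
    rw [e] at h1
    have h4 := (dvd_add_right (h3.mul_right _)).1 h1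
    exact (IsCoprime.pow_right (⟨a, b, hab⟩ : IsCoprime (((l ^ i : ℕ)) : ℤ) v.im)).dvd_of_dvd_mul_left
      h4

open scoped Classical in
/-- the primitive vectors with norm divisible by a high power of `l` -/
lemma card_pow (U : Un t c η) {C : ℝ}
    (hC : ∀ (d : ℕ) (r : ℤ), 1 ≤ d → (d : ℤ) ∣ r ^ 2 - t * r + c →
      ∀ X : ℝ, 1 ≤ X → (((ball η X).filter (lat d r)).card : ℝ) ≤ C * X / d)
    (hC0 : 0 < C) {l i s : ℕ} (hl : l.Prime) (hsi : s + 1 ≤ i)
    (hs : ¬ ((l ^ (s + 1) : ℕ) : ℤ) ∣ t ^ 2 - 4 * c) {X : ℝ} (hX : 1 ≤ X) :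
    (((pball η X).filter (fun v => l ^ i ∣ nm v)).card : ℝ) ≤
      2 * (C * X / ((l ^ (i - s) : ℕ) : ℝ)) := by
  rcases ((pball η X).filter (fun v => l ^ i ∣ nm v)).eq_empty_or_nonempty with h0 | ⟨v₀, h0⟩
  · rw [h0, card_empty]
    have := hl.pos
    push_cast
    positivity
  · rw [mem_filter, U.mem_pball] at h0
    obtain ⟨r₀, hr1, hr2⟩ := exists_root U.disc hl (by omega) h0.1.1.1 h0.1.2.1 h0.2
    have hdvd : ((l ^ (i - s) : ℕ) : ℤ) ∣ ((l ^ i : ℕ) : ℤ) := by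
      exact_mod_cast pow_dvd_pow l (by omega : i - s ≤ i)
    have hdvd2 : ((l ^ (s + 1) : ℕ) : ℤ) ∣ ((l ^ i : ℕ) : ℤ) := by
      exact_mod_cast pow_dvd_pow l (by omega : s + 1 ≤ i)
    have hsub : (pball η X).filter (fun v => l ^ i ∣ nm v) ⊆
        (ball η X).filter (lat (l ^ (i - s)) r₀) ∪
          (ball η X).filter (lat (l ^ (i - s)) (t - r₀)) := by
      intro v hv
      rw [mem_filter, U.mem_pball] at hv
      obtain ⟨⟨hv0, hv1, hv2⟩, hv3⟩ := hv
      obtain ⟨r, h1, h2⟩ := exists_root U.disc hl (by omega) hv0.1 hv1 hv3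
      have hvb : v ∈ ball η X := U.mem_ball.2 ⟨hv0, hv2⟩
      have h3 : ((l ^ i : ℕ) : ℤ) ∣ (r - r₀) * (r + r₀ - t) := by
        have h4 := dvd_sub h2 hr2
        have e : r ^ 2 - t * r + c - (r₀ ^ 2 - t * r₀ + c) = (r - r₀) * (r + r₀ - t) := by ring
        rwa [e] at h4
      unfold lat at h1
      rw [mem_union, mem_filter, mem_filter]
      rcases dich hl h3 hsi with h4 | h4 | ⟨h4, h5⟩
      · left
        refine ⟨hvb, ?_⟩
        unfold lat
        have h5 := dvd_sub (hdvd.trans h1) (h4.mul_right v.im)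
        have e : v.re + r * v.im - (r - r₀) * v.im = v.re + r₀ * v.im := by ring
        rwa [e] at h5
      · right
        refine ⟨hvb, ?_⟩
        unfold lat
        have h5 := dvd_sub (hdvd.trans h1) (h4.mul_right v.im)
        have e : v.re + r * v.im - (r + r₀ - t) * v.im = v.re + (t - r₀) * v.im := by ring
        rwa [e] at h5
      · exfalso
        apply hs
        have h6 := dvd_sub h5 h4
        have e : r + r₀ - t - (r - r₀) = 2 * r₀ - t := by ring
        rw [e] at h6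
        have h7 := (h6.mul_right (2 * r₀ - t))
        have h8 := (hdvd2.trans hr2).mul_left 4
        have h9 := dvd_sub h7 h8
        have e2 : (2 * r₀ - t) * (2 * r₀ - t) - 4 * (r₀ ^ 2 - t * r₀ + c) = t ^ 2 - 4 * c := by ring
        rwa [e2] at h9
    have hroot2 : (t - r₀) ^ 2 - t * (t - r₀) + c = r₀ ^ 2 - t * r₀ + c := by ring
    have h1 := hC (l ^ (i - s)) r₀ (Nat.one_le_pow _ _ hl.pos) (hdvd.trans hr2) X hX
    have h2 := hC (l ^ (i - s)) (t - r₀) (Nat.one_le_pow _ _ hl.pos)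
      (by rw [hroot2]; exact hdvd.trans hr2) X hX
    have h3 := (card_le_card hsub).trans (card_union_le _ _)
    have h4 : (((pball η X).filter (fun v => l ^ i ∣ nm v)).card : ℝ) ≤
      (((ball η X).filter (lat (l ^ (i - s)) r₀)).card : ℝ) +
        (((ball η X).filter (lat (l ^ (i - s)) (t - r₀))).card : ℝ) := by exact_mod_cast h3
    linarith

lemma tail_all (z : ℕ) (hz : 1 ≤ z) (L : Finset ℕ) (hL : ∀ l ∈ L, z < l) :
    ∑ l ∈ L, 1 / (l : ℝ) ^ 2 ≤ 1 / (z : ℝ) := by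
  classical
  have h1 : L ⊆ Ioc z (z + L.sup id) := by
    intro l hl
    rw [mem_Ioc]
    refine ⟨hL l hl, ?_⟩
    have : l ≤ L.sup id := Finset.le_sup (f := id) hl
    omega
  refine (sum_le_sum_of_subset_of_nonneg h1 (fun _ _ _ => by positivity)).trans ?_
  have h2 := sum_Ioc_inv_sq_le_sub (α := ℝ) (k := z) (n := z + L.sup id) (by omega) (by omega)
  simp only [one_div]
  refine h2.trans ?_
  have : (0 : ℝ) ≤ (((z + L.sup id : ℕ) : ℝ))⁻¹ := by positivity
  linarith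

open scoped Classical in
/-- the pairs with `l^2 ∣ NN e` for a prime `l > z` -/
lemma sq_large (U : Un t c η) (hEQU : S_EQU t c η) (hLARGE : S_LARGE t c η) :
    ∃ C : ℝ, 0 < C ∧ ∀ z : ℕ, (t ^ 2 - 4 * c).natAbs ≤ z → ∀ δ : ℝ, 0 < δ → ∃ X₀ : ℝ, ∀ X : ℝ,
      X₀ ≤ X → (((dedge η X).filter (fun e => ∃ l : ℕ, l.Prime ∧ z < l ∧ l ^ 2 ∣ NN e)).card : ℝ) ≤
        (C / z + δ) * X := by
  obtain ⟨C, hC, hE⟩ := hEQU
  obtain ⟨A, hL⟩ := hLARGE
  refine ⟨6 * C, by positivity, fun z hz δ hδ => ?_⟩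
  have hDn : (t ^ 2 - 4 * c).natAbs ≠ 0 := by
    rw [ne_eq, Int.natAbs_eq_zero]
    have := U.disc
    omega
  have hz1 : 1 ≤ z := by omega
  have hzR : (1 : ℝ) ≤ z := by exact_mod_cast hz1
  obtain ⟨X₁, hX₁⟩ := hL δ hδ
  obtain ⟨X₂, hX₂⟩ := hE (2 * A)
  refine ⟨max (Real.exp 1) (max X₁ X₂), fun X hX => ?_⟩
  have hXe : Real.exp 1 ≤ X := (le_max_left _ _).trans hX
  have hXX1 : X₁ ≤ X := ((le_max_left _ _).trans (le_max_right _ _)).trans hX
  have hXX2 : X₂ ≤ X := ((le_max_right _ _).trans (le_max_right _ _)).trans hX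
  have hX1 : 1 ≤ X := by
    have := Real.add_one_le_exp (1 : ℝ)
    linarith
  have hlog : 1 ≤ Real.log X := by
    rw [Real.le_log_iff_exp_le (by linarith)]
    exact hXe
  set N : ℕ := ⌊Real.log X ^ A⌋₊ with hN
  set L : Finset ℕ := (Ioc z N).filter (fun l => l.Prime) with hLdef
  set BL := (dedge η X).filter (fun e => ∃ l : ℕ, l.Prime ∧ Real.log X ^ A < (l : ℝ) ∧
      l ^ 2 ∣ NN e) with hBL
  set B : ℕ → Finset (Qd t c × Qd t c) := fun l =>
    (dedge η X).filter (fun e => l ^ 2 ∣ NN e) with hB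
  have hsub : (dedge η X).filter (fun e => ∃ l : ℕ, l.Prime ∧ z < l ∧ l ^ 2 ∣ NN e) ⊆
      BL ∪ L.biUnion B := by
    intro e he
    rw [mem_filter] at he
    obtain ⟨he1, l, hl, hzl, hle⟩ := he
    rw [mem_union]
    by_cases hlarge : Real.log X ^ A < (l : ℝ)
    · left
      rw [hBL, mem_filter]
      exact ⟨he1, l, hl, hlarge, hle⟩
    · right
      rw [mem_biUnion]
      refine ⟨l, ?_, ?_⟩
      · rw [hLdef, mem_filter, mem_Ioc]
        exact ⟨⟨hzl, Nat.le_floor (not_lt.1 hlarge)⟩, hl⟩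
      · rw [hB, mem_filter]
        exact ⟨he1, hle⟩
  have hcardBL : (BL.card : ℝ) ≤ δ * X := hX₁ X hXX1
  have hcardB : ∀ l ∈ L, ((B l).card : ℝ) ≤ 6 * C * X * (1 / (l : ℝ) ^ 2) := by
    intro l hl
    rw [hLdef, mem_filter, mem_Ioc] at hl
    obtain ⟨⟨hzl, hlN⟩, hlp⟩ := hl
    have hlpos : (0 : ℝ) < l := by exact_mod_cast hlp.pos
    have hlR : (l : ℝ) ≤ Real.log X ^ A :=
      (Nat.cast_le.2 hlN).trans (Nat.floor_le (by positivity))
    have hlD : ¬ (l : ℤ) ∣ t ^ 2 - 4 * c := by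
      intro h
      have h2 : l ∣ (t ^ 2 - 4 * c).natAbs := Int.natCast_dvd.1 h
      have h3 := Nat.le_of_dvd (Nat.pos_of_ne_zero hDn) h2
      omega
    obtain ⟨β, hβ, f, hf1, hf2⟩ := classes U.disc hlp hlD
    have h1 := card_le_classes (l := l ^ 2) (k := 6 * l ^ 4) (B l) (dedge η X)
      (by rw [hB]; exact filter_subset _ _) (fun e => (tp e.1 ∧ tp e.2 ∧ dt e.1 e.2 = 1) ∧ l ^ 2 ∣ NN e)
      (by
        intro e he
        rw [hB, mem_filter] at he
        have he2 := U.mem_dedge.1 he.1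
        exact ⟨⟨he2.1.1, he2.2.2.1, he2.2.2.2.2⟩, he.2⟩)
      ⟨β, hβ, f, hf1, fun e e' he he' => hf2 e e' he.1 he'.1 he.2 he'.2⟩
      (C * X / ((l ^ 2 : ℕ) : ℝ) ^ 3) (by positivity) (by
        intro x₁ y₁ x₂ y₂
        refine hX₂ X (l ^ 2) x₁ y₁ x₂ y₂ hXX2 (Nat.one_le_pow _ _ hlp.pos) ?_
        push_cast
        rw [mul_comm 2 A, pow_mul]
        exact pow_le_pow_left₀ hlpos.le hlR 2)
    refine h1.trans (le_of_eq ?_)
    push_cast
    field_simp
  have hsum : ∑ l ∈ L, 1 / (l : ℝ) ^ 2 ≤ 1 / (z : ℝ) := by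
    refine tail_all z hz1 L fun l hl => ?_
    rw [hLdef, mem_filter, mem_Ioc] at hl
    exact hl.1.1
  have hcard := (Finset.card_le_card hsub).trans (card_union_le _ _)
  have hcard2 : (((dedge η X).filter (fun e => ∃ l : ℕ, l.Prime ∧ z < l ∧ l ^ 2 ∣ NN e)).card : ℝ) ≤
      (BL.card : ℝ) + ((L.biUnion B).card : ℝ) := by exact_mod_cast hcard
  have hcard3 : ((L.biUnion B).card : ℝ) ≤ ∑ l ∈ L, ((B l).card : ℝ) := by
    exact_mod_cast card_biUnion_le
  refine hcard2.trans ?_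
  calc (BL.card : ℝ) + ((L.biUnion B).card : ℝ)
      ≤ δ * X + ∑ l ∈ L, 6 * C * X * (1 / (l : ℝ) ^ 2) :=
        add_le_add hcardBL (hcard3.trans (sum_le_sum hcardB))
    _ = δ * X + 6 * C * X * ∑ l ∈ L, (1 / (l : ℝ) ^ 2) := by rw [mul_sum]
    _ ≤ δ * X + 6 * C * X * (1 / (z : ℝ)) := by
        have : 0 ≤ 6 * C * X := by positivity
        have := mul_le_mul_of_nonneg_left hsum this
        linarith
    _ = (6 * C / z + δ) * X := by ring

theorem sqb_of (U : Un t c η) : S_EQU t c η → S_LARGE t c η → S_VE t c η → S_LAT t c η →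
    S_LATI t c η → S_SQB t c η := by
  classical
  rintro hEQU hLARGE ⟨CV, hCV, hVE⟩ - ⟨CL, hCL, hLATI⟩ δ hδ
  obtain ⟨CS, hCS, hSQ⟩ := sq_large U hEQU hLARGE
  set D : ℕ := (t ^ 2 - 4 * c).natAbs with hDdef
  have hD0 : D ≠ 0 := by
    rw [hDdef, ne_eq, Int.natAbs_eq_zero]
    have := U.disc
    omega
  obtain ⟨z, hz⟩ := exists_nat_ge (max (D : ℝ) (4 * CS / δ))
  have hzD : D ≤ z := by
    have : (D : ℝ) ≤ z := (le_max_left _ _).trans hz
    exact_mod_cast this
  have hz3 : 4 * CS / δ ≤ z := (le_max_right _ _).trans hz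
  have hz1 : 1 ≤ z := by omega
  have hz0 : (0 : ℝ) < z := by exact_mod_cast hz1
  obtain ⟨X₀, hX₀⟩ := hSQ z hzD (δ / 4) (by positivity)
  set κ : ℝ := min 1 (δ / (4 * CV)) with hκ
  have hκ0 : 0 < κ := lt_min one_pos (by positivity)
  have hκ1 : κ ≤ 1 := min_le_left _ _
  have hκ2 : CV * κ ≤ δ / 4 := by
    have h1 : κ ≤ δ / (4 * CV) := min_le_right _ _
    calc CV * κ ≤ CV * (δ / (4 * CV)) := mul_le_mul_of_nonneg_left h1 hCV.le
      _ = δ / 4 := by field_simp
  set T : ℝ := CV * (2 * (((z : ℝ) + 1) * (2 * CL))) / κ with hT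
  have hT0 : 0 < T := by positivity
  obtain ⟨j, hj⟩ : ∃ j : ℕ, T / 2 ^ j ≤ δ / 4 := by
    obtain ⟨j, hj⟩ := pow_unbounded_of_one_lt (T / (δ / 4)) (show (1 : ℝ) < 2 by norm_num)
    refine ⟨j, ?_⟩
    rw [div_le_iff₀ (by positivity)]
    rw [div_lt_iff₀ (by positivity)] at hj
    linarith
  set i : ℕ := D + 1 + j with hi
  set P : Finset ℕ := (range (z + 1)).filter (fun l => l.Prime) with hP
  set V0 : ℝ → Finset (Qd t c) := fun X => P.biUnion
    (fun l => (pball η X).filter (fun v => l ^ i ∣ nm v)) with hV0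
  set V : ℝ → Finset (Qd t c) := fun X => V0 X ∪ (V0 X).image (fun z => (η : Qd t c) * z) with hV
  have hVcard0 : ∀ X : ℝ, 1 ≤ X → ((V0 X).card : ℝ) ≤ (z + 1) * (2 * (CL * X / 2 ^ j)) := by
    intro X hX
    have h1 : ((V0 X).card : ℝ) ≤
        ∑ l ∈ P, (((pball η X).filter (fun v => l ^ i ∣ nm v)).card : ℝ) := by
      exact_mod_cast card_biUnion_le
    refine h1.trans ?_
    have h2 : ∀ l ∈ P, (((pball η X).filter (fun v => l ^ i ∣ nm v)).card : ℝ) ≤
        2 * (CL * X / 2 ^ j) := by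
      intro l hl
      rw [hP, mem_filter] at hl
      have hlp := hl.2
      have hs : ¬ ((l ^ (D + 1) : ℕ) : ℤ) ∣ t ^ 2 - 4 * c := by
        intro h
        have h2 := Nat.le_of_dvd (Nat.pos_of_ne_zero hD0) (Int.natCast_dvd.1 h)
        have h3 : D + 1 < l ^ (D + 1) := Nat.lt_pow_self hlp.one_lt
        omega
      have h3 := card_pow U (fun d r hd hr => (hLATI d r hd hr).2.1) hCL hlp
        (i := i) (s := D) (by omega) hs hX
      refine h3.trans ?_
      have h4 : (2 : ℝ) ^ j ≤ ((l ^ (i - D) : ℕ) : ℝ) := by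
        push_cast
        have h5 : (2 : ℝ) ≤ l := by exact_mod_cast hlp.two_le
        calc (2 : ℝ) ^ j ≤ 2 ^ (i - D) := pow_le_pow_right₀ (by norm_num) (by omega)
          _ ≤ (l : ℝ) ^ (i - D) := pow_le_pow_left₀ (by norm_num) h5 _
      have h5 : CL * X / ((l ^ (i - D) : ℕ) : ℝ) ≤ CL * X / 2 ^ j := by
        apply div_le_div_of_nonneg_left (by positivity) (by positivity) h4
      linarith
    refine (sum_le_sum h2).trans ?_
    rw [sum_const, nsmul_eq_mul]
    apply mul_le_mul_of_nonneg_right _ (by positivity)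
    have := card_filter_le (range (z + 1)) (fun l => l.Prime)
    rw [card_range] at this
    exact_mod_cast this
  have hVcard : ∀ X : ℝ, 1 ≤ X → ((V X).card : ℝ) ≤ 2 * ((z + 1) * (2 * (CL * X / 2 ^ j))) := by
    intro X hX
    have h1 := hVcard0 X hX
    have h2 : (V X).card ≤ (V0 X).card + (V0 X).card := by
      rw [hV]
      exact (card_union_le _ _).trans (Nat.add_le_add_left card_image_le _)
    have h3 : ((V X).card : ℝ) ≤ (V0 X).card + (V0 X).card := by exact_mod_cast h2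
    linarith
  -- the bound for `q`
  set S : ℕ := ∏ l ∈ P, l ^ i with hS
  refine ⟨S, max X₀ 1, fun X hX => ?_⟩
  have hX1 : 1 ≤ X := (le_max_right _ _).trans hX
  have hX00 : X₀ ≤ X := (le_max_left _ _).trans hX
  have h1 := hX₀ X hX00
  have h2 := hVE κ X (V X) hκ0 hκ1 hX1
  have hcov : (dedge η X).filter (fun e => ∃ q : ℕ, S < q ∧ q ^ 2 ∣ NN e) ⊆
      (dedge η X).filter (fun e => ∃ l : ℕ, l.Prime ∧ z < l ∧ l ^ 2 ∣ NN e) ∪
      (dedge η X).filter (fun e => e.1 ∈ V X ∨ e.2 ∈ V X) := by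
    intro e he
    rw [mem_filter] at he
    obtain ⟨he1, q, hq1, hq2⟩ := he
    rw [mem_union, mem_filter, mem_filter]
    by_contra hcon
    push Not at hcon
    obtain ⟨hc1, hc2⟩ := hcon
    have hc1' := hc1 he1
    have hc2' := hc2 he1
    obtain ⟨hf1, hn1, ht2, hn2, hdt⟩ := U.mem_dedge.1 he1
    obtain ⟨hp1, hp2⟩ := prim_of_dt hdt
    have hm1 : nm e.1 ≠ 0 := (nm_pos U.disc hf1.1).ne'
    have hm2 : nm e.2 ≠ 0 := (nm_pos U.disc ht2).ne'
    have hm : NN e ≠ 0 := by unfold NN; exact mul_ne_zero hm1 hm2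
    have hq0 : q ≠ 0 := by omega
    have hS0 : S ≠ 0 := by
      rw [hS]
      refine prod_ne_zero_iff.2 fun l hl => ?_
      rw [hP, mem_filter] at hl
      exact pow_ne_zero _ hl.2.ne_zero
    have hqS : q ∣ S := by
      rw [← Nat.factorization_le_iff_dvd hq0 hS0]
      intro l
      by_cases hlp : l.Prime
      swap
      · rw [Nat.factorization_eq_zero_of_not_prime _ hlp]
        exact Nat.zero_le _
      by_cases hlq : l ∣ q
      swap
      · rw [Nat.factorization_eq_zero_of_not_dvd hlq]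
        exact Nat.zero_le _
      have hlz : l ≤ z := by
        by_contra hcon
        exact hc1' l hlp (by omega) ((pow_dvd_pow_of_dvd hlq 2).trans hq2)
      have hlP : l ∈ P := by
        rw [hP, mem_filter, mem_range]
        exact ⟨by omega, hlp⟩
      have h3 : l ^ i ∣ S := by
        rw [hS]
        exact dvd_prod_of_mem _ hlP
      have h4 : i ≤ S.factorization l := (hlp.pow_dvd_iff_le_factorization hS0).1 h3
      refine le_trans ?_ h4
      by_contra hcon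
      have h5 : l ^ i ∣ q := (hlp.pow_dvd_iff_le_factorization hq0).2 (by omega)
      have h6 : l ^ (2 * i) ∣ NN e := by
        have := (pow_dvd_pow_of_dvd h5 2).trans hq2
        rwa [← pow_mul, mul_comm i 2] at this
      have h7 : l ^ i ∣ nm e.1 ∨ l ^ i ∣ nm e.2 := by
        rw [hlp.pow_dvd_iff_le_factorization hm] at h6
        rw [hlp.pow_dvd_iff_le_factorization hm1, hlp.pow_dvd_iff_le_factorization hm2]
        unfold NN at h6
        rw [Nat.factorization_mul hm1 hm2, Finsupp.add_apply] at h6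
        omega
      have key : ∀ v : Qd t c, fd η v → prim v → (nm v : ℝ) ≤ X → l ^ i ∣ nm v → v ∈ V0 X := by
        intro v hf hv hvX hd
        rw [hV0, mem_biUnion]
        exact ⟨l, hlP, mem_filter.2 ⟨U.mem_pball.2 ⟨hf, hv, hvX⟩, hd⟩⟩
      rcases h7 with h7 | h7
      · exact hc2'.1 (mem_union_left _ (key _ hf1 hp1 hn1 h7))
      · apply hc2'.2
        have he3 := he1
        unfold dedge at he3
        rw [mem_filter, mem_product, mem_union, mem_image] at he3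
        rcases he3.1.2 with h8 | ⟨w, hw, h8⟩
        · exact mem_union_left _ (key _ (U.mem_ball.1 h8).1 hp2 hn2 h7)
        · rw [← h8] at hp2 hn2 h7 ⊢
          refine mem_union_right _ (mem_image_of_mem _ ?_)
          have hw2 := U.mem_ball.1 hw
          rw [nm_mul, Un.nm_eta, one_mul] at h7
          refine key w hw2.1 ?_ hw2.2 h7
          have := (prim_zpow_mul (η := η) 1 (z := w)).1
          rw [zpow_one] at this
          exact this hp2
    have := Nat.le_of_dvd (Nat.pos_of_ne_zero hS0) hqS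
    omega
  have h3 := (card_le_card hcov).trans (card_union_le _ _)
  have h4 : (((dedge η X).filter (fun e => ∃ q : ℕ, S < q ∧ q ^ 2 ∣ NN e)).card : ℝ) ≤
      (((dedge η X).filter (fun e => ∃ l : ℕ, l.Prime ∧ z < l ∧ l ^ 2 ∣ NN e)).card : ℝ) +
      (((dedge η X).filter (fun e => e.1 ∈ V X ∨ e.2 ∈ V X)).card : ℝ) := by
    exact_mod_cast h3
  have h5 : (CS / z + δ / 4) * X ≤ δ / 2 * X := by
    apply mul_le_mul_of_nonneg_right _ (by linarith)
    have : CS / z ≤ δ / 4 := by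
      rw [div_le_iff₀ hz0]
      rw [div_le_iff₀ hδ] at hz3
      linarith
    linarith
  have h6 : CV * (κ * X + ((V X).card : ℝ) / κ) ≤ δ / 2 * X := by
    have h8 := hVcard X hX1
    have h9 : CV * (((V X).card : ℝ) / κ) ≤
        CV * (2 * (((z : ℝ) + 1) * (2 * (CL * X / 2 ^ j))) / κ) := by
      apply mul_le_mul_of_nonneg_left _ hCV.le
      apply div_le_div_of_nonneg_right _ hκ0.le
      linarith
    have h10 : CV * (2 * (((z : ℝ) + 1) * (2 * (CL * X / 2 ^ j))) / κ) = T / 2 ^ j * X := by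
      rw [hT]
      field_simp
    rw [h10] at h9
    have h11 : T / 2 ^ j * X ≤ δ / 4 * X := mul_le_mul_of_nonneg_right hj (by linarith)
    have h12 : CV * κ * X ≤ δ / 4 * X := mul_le_mul_of_nonneg_right hκ2 (by linarith)
    rw [mul_add]
    linarith
  linarith

end Pool.Agent.W500.GR
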